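import Mathlib
import Pool.Agent.Helper58.FX.Defs2

set_option autoImplicit false
open Helper17.LevelSets Helper17.FU Helper17.FUGroup Helper91.TTT
open scoped ComplexConjugate ComplexOrder

/-! CV-5: the extension by zero of an invariant positive definite function. -/

namespace Helper73.FX
open Helper58.FX

open Classical in
/-- extension of `q` to the rational numbers -/
noncomputable def QQ (q : ℤ → ℂ) (r : ℚ) : ℂ :=
  if h : IsS r then q h.choose_spec.choose else 0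

lemma six_pow {q : ℤ → ℂ} (hq : IPD q) (K : ℕ) (n : ℤ) : q (6 ^ K * n) = q n := by
  induction K with
  | zero => simp
  | succ K ih =>
    have e : (6 : ℤ) ^ (K + 1) * n = 2 * (3 * (6 ^ K * n)) := by rw [pow_succ]; ring
    rw [e, hq.two, hq.three, ih]

lemma QQ_eq {q : ℤ → ℂ} (hq : IPD q) {r : ℚ} {K : ℕ} {n : ℤ} (h : 6 ^ K * r = n) :
    QQ q r = q n := by
  have hS : IsS r := ⟨K, n, h⟩
  unfold QQ
  rw [dif_pos hS]
  have h' : 6 ^ hS.choose * r = (hS.choose_spec.choose : ℚ) := hS.choose_spec.choose_spec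
  have h3 : (6 : ℚ) ^ hS.choose * n = 6 ^ K * (hS.choose_spec.choose : ℤ) := by
    rw [← h, ← h']; ring
  have h4 : (6 : ℤ) ^ hS.choose * n = 6 ^ K * hS.choose_spec.choose := by exact_mod_cast h3
  rw [← six_pow hq hS.choose n, h4, six_pow hq]

lemma QQ_two {q : ℤ → ℂ} (hq : IPD q) (r : ℚ) : QQ q (2 * r) = QQ q r := by
  by_cases h : IsS r
  · obtain ⟨K, n, hn⟩ := h
    rw [QQ_eq hq hn, ← hq.two n]
    apply QQ_eq hq (K := K)
    push_cast
    rw [← hn]; ring
  · have h2 : ¬ IsS (2 * r) := by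
      intro h2
      apply h
      have := isS_half.mul h2
      rwa [← mul_assoc, inv_mul_cancel₀ (by norm_num), one_mul] at this
    unfold QQ
    rw [dif_neg h, dif_neg h2]

lemma QQ_three {q : ℤ → ℂ} (hq : IPD q) (r : ℚ) : QQ q (3 * r) = QQ q r := by
  by_cases h : IsS r
  · obtain ⟨K, n, hn⟩ := h
    rw [QQ_eq hq hn, ← hq.three n]
    apply QQ_eq hq (K := K)
    push_cast
    rw [← hn]; ring
  · have h2 : ¬ IsS (3 * r) := by
      intro h2
      apply h
      have := isS_third.mul h2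
      rwa [← mul_assoc, inv_mul_cancel₀ (by norm_num), one_mul] at this
    unfold QQ
    rw [dif_neg h, dif_neg h2]

lemma aii (g : Equiv.Perm ℚ) (x : ℚ) : g (g⁻¹ x) = x := by
  show g (g.symm x) = x
  exact g.apply_symm_apply x

/-- the multiplier -/
def mu (g : Equiv.Perm ℚ) : ℚ := g 1 - g 0

lemma struct {s2 s3 t : Equiv.Perm ℚ} (h2 : ∀ x : ℚ, s2 x = 2 * x)
    (h3 : ∀ x : ℚ, s3 x = 3 * x) (ht : ∀ x : ℚ, t x = x + 1) {q : ℤ → ℂ} (hq : IPD q)
    {g : Equiv.Perm ℚ} (hg : g ∈ Subgroup.closure {s2, s3, t}) :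
    mu g ≠ 0 ∧ (∀ x, g x = mu g * x + g 0) ∧ IsS (g 0) ∧ ∀ r, QQ q (mu g * r) = QQ q r := by
  obtain ⟨β, s, hβ, -, -, hs, hx⟩ := aff_of_mem h2 h3 ht hg
  have h0 : g 0 = s := by rw [hx]; ring
  have h1 : mu g = β := by unfold mu; rw [hx, hx]; ring
  refine ⟨by rw [h1]; exact hβ, fun x => by rw [h1, h0, hx], by rw [h0]; exact hs, ?_⟩
  clear h0 h1 hx hs hβ s β
  induction hg using Subgroup.closure_induction with
  | mem g hg =>
    simp only [Set.mem_insert_iff, Set.mem_singleton_iff] at hg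
    intro r
    rcases hg with rfl | rfl | rfl
    · have : mu g = 2 := by unfold mu; rw [h2, h2]; norm_num
      rw [this, QQ_two hq]
    · have : mu g = 3 := by unfold mu; rw [h3, h3]; norm_num
      rw [this, QQ_three hq]
    · have : mu g = 1 := by unfold mu; rw [ht, ht]; norm_num
      rw [this, one_mul]
  | one =>
    intro r
    have : mu 1 = 1 := by unfold mu; simp
    rw [this, one_mul]
  | mul g k hg hk ihg ihk =>
    intro r
    obtain ⟨β, s, hβ, -, -, -, hx⟩ := aff_of_mem h2 h3 ht hg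
    obtain ⟨γ, u, hγ, -, -, -, hy⟩ := aff_of_mem h2 h3 ht hk
    have e1 : mu g = β := by unfold mu; rw [hx, hx]; ring
    have e2 : mu k = γ := by unfold mu; rw [hy, hy]; ring
    have e3 : mu (g * k) = β * γ := by
      unfold mu; rw [Equiv.Perm.mul_apply, Equiv.Perm.mul_apply, hx, hx, hy, hy]; ring
    rw [e3, mul_assoc, ← e1, ihg, ← e2, ihk]
  | inv g hg ih =>
    intro r
    obtain ⟨β, s, hβ, -, -, -, hx⟩ := aff_of_mem h2 h3 ht hg
    have e1 : mu g = β := by unfold mu; rw [hx, hx]; ring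
    have e2 : mu g⁻¹ = β⁻¹ := by
      have h4 := hx (g⁻¹ 1)
      have h5 := hx (g⁻¹ 0)
      rw [aii] at h4 h5
      unfold mu
      field_simp
      linarith
    have h6 := ih (β⁻¹ * r)
    rw [e1, ← mul_assoc, mul_inv_cancel₀ hβ, one_mul] at h6
    rw [e2, h6]

/-- pulling back a positive definite function -/
lemma pdz_pull {q : ℤ → ℂ} (hq : PDZ q) {ι : Type*} (s : Finset ι) (N : ι → ℤ) (c : ι → ℂ) :
    0 ≤ ∑ i ∈ s, ∑ j ∈ s, star (c j) * c i * q (N i - N j) := by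
  classical
  have h := hq (s.image N) (fun n => ∑ i ∈ s with N i = n, c i)
  have hm : ∀ i ∈ s, N i ∈ s.image N := fun i hi => Finset.mem_image_of_mem _ hi
  convert h using 1
  rw [← Finset.sum_fiberwise_of_maps_to hm]
  refine Finset.sum_congr rfl (fun n _ => ?_)
  have e1 : ∀ i ∈ s.filter (fun i => N i = n), (∑ j ∈ s, star (c j) * c i * q (N i - N j)) =
      ∑ m ∈ s.image N, ∑ j ∈ s with N j = m, star (c j) * c i * q (n - m) := by
    intro i hi
    rw [← Finset.sum_fiberwise_of_maps_to hm]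
    refine Finset.sum_congr rfl (fun m _ => Finset.sum_congr rfl (fun j hj => ?_))
    rw [(Finset.mem_filter.mp hi).2, (Finset.mem_filter.mp hj).2]
  rw [Finset.sum_congr rfl e1, Finset.sum_comm]
  refine Finset.sum_congr rfl (fun m _ => ?_)
  rw [star_sum, Finset.sum_mul_sum, Finset.sum_mul, Finset.sum_comm]
  refine Finset.sum_congr rfl (fun j _ => ?_)
  rw [Finset.sum_mul]

theorem zero_ext {s2 s3 t : Equiv.Perm ℚ} (h2 : ∀ x : ℚ, s2 x = 2 * x)
    (h3 : ∀ x : ℚ, s3 x = 3 * x)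
    (ht : ∀ x : ℚ, t x = x + 1) {τ : GG s2 s3 t} (hτ : (τ : Equiv.Perm ℚ) = t)
    {q : ℤ → ℂ} (hq : IPD q) :
    ∃ φ : GG s2 s3 t → ℂ, φ ∈ TR (GG s2 s3 t) ∧ (∀ g, ¬ IsTr g → φ g = 0) ∧
      ∀ n : ℤ, φ (τ ^ n) = q n := by
  classical
  set φ : GG s2 s3 t → ℂ := fun g =>
    if IsTr g then QQ q ((g : Equiv.Perm ℚ) 0) else 0 with hφ
  have hS := fun g : GG s2 s3 t => struct h2 h3 ht hq g.2
  have hTr : ∀ g : GG s2 s3 t, IsTr g ↔ mu g = 1 := by
    intro g
    constructor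
    · rintro ⟨r, hr⟩
      unfold mu; rw [hr, hr]; ring
    · intro h
      refine ⟨(g : Equiv.Perm ℚ) 0, fun x => ?_⟩
      rw [(hS g).2.1 x, h, one_mul]
  have hpow : ∀ n : ℤ, φ (τ ^ n) = q n := by
    intro n
    have h1 : IsTr (τ ^ n) := ⟨n, fun x => by rw [Subgroup.coe_zpow, hτ, t_zpow ht]⟩
    rw [hφ]
    show (if IsTr (τ ^ n) then _ else _) = _
    rw [if_pos h1]
    apply QQ_eq hq (K := 0)
    rw [Subgroup.coe_zpow, hτ, t_zpow ht]; ring
  refine ⟨φ, ⟨?_, ?_, ?_⟩, fun g hg => by rw [hφ]; exact if_neg hg, hpow⟩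
  · have := hpow 0
    rw [zpow_zero, hq.one] at this
    exact this
  · intro g h
    have hmu : mu ((h * g * h⁻¹ : GG s2 s3 t) : Equiv.Perm ℚ) = mu g := by
      have hh := (hS h).2.1
      have hg := (hS g).2.1
      have e0 := hh (((h : Equiv.Perm ℚ)⁻¹) 0)
      have e1 := hh (((h : Equiv.Perm ℚ)⁻¹) 1)
      rw [aii] at e0 e1
      have : mu ((h * g * h⁻¹ : GG s2 s3 t) : Equiv.Perm ℚ) =
          (h : Equiv.Perm ℚ) ((g : Equiv.Perm ℚ) (((h : Equiv.Perm ℚ)⁻¹) 1)) -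
          (h : Equiv.Perm ℚ) ((g : Equiv.Perm ℚ) (((h : Equiv.Perm ℚ)⁻¹) 0)) := rfl
      rw [this, hh, hh ((g : Equiv.Perm ℚ) (((h : Equiv.Perm ℚ)⁻¹) 0)), hg, hg
        (((h : Equiv.Perm ℚ)⁻¹) 0)]
      have e2 : mu (h : Equiv.Perm ℚ) * (((h : Equiv.Perm ℚ)⁻¹) 1 - ((h : Equiv.Perm ℚ)⁻¹) 0) = 1 := by
        linarith
      linear_combination (mu (g : Equiv.Perm ℚ)) * e2
    show (if IsTr (h * g * h⁻¹) then _ else _) = (if IsTr g then _ else _)
    by_cases hg : IsTr g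
    · have hg1 := (hTr g).mp hg
      have hg2 : IsTr (h * g * h⁻¹) := (hTr _).mpr (by rw [hmu]; exact hg1)
      rw [if_pos hg, if_pos hg2]
      have hh := (hS h).2.1
      have e0 := hh (((h : Equiv.Perm ℚ)⁻¹) 0)
      rw [aii] at e0
      have e3 : ((h * g * h⁻¹ : GG s2 s3 t) : Equiv.Perm ℚ) 0 =
          (h : Equiv.Perm ℚ) ((g : Equiv.Perm ℚ) (((h : Equiv.Perm ℚ)⁻¹) 0)) := rfl
      have e4 : ((h * g * h⁻¹ : GG s2 s3 t) : Equiv.Perm ℚ) 0 = mu h * (g : Equiv.Perm ℚ) 0 := by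
        rw [e3, hh, (hS g).2.1, hg1]
        linear_combination -e0
      rw [e4, (hS h).2.2.2]
    · have hg2 : ¬ IsTr (h * g * h⁻¹) := by
        rw [hTr, hmu, ← hTr]; exact hg
      rw [if_neg hg, if_neg hg2]
  · intro s c
    -- common denominator
    have hK : ∃ K : ℕ, ∀ g ∈ s, ∃ n : ℤ, 6 ^ K * ((g : Equiv.Perm ℚ) 0) = n := by
      choose k n hkn using fun g : GG s2 s3 t => (hS g).2.2.1
      refine ⟨s.sup k, fun g hg => ⟨6 ^ (s.sup k - k g) * n g, ?_⟩⟩
      push_cast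
      rw [← hkn g, ← mul_assoc, ← pow_add, Nat.sub_add_cancel (Finset.le_sup hg)]
    obtain ⟨K, hK⟩ := hK
    choose! N hN using hK
    have key : ∀ i ∈ s, ∀ j ∈ s, φ (j⁻¹ * i) =
        if mu (j : Equiv.Perm ℚ) = mu (i : Equiv.Perm ℚ) then q (N i - N j) else 0 := by
      intro i hi j hj
      have hj1 := (hS j).2.1
      have hi1 := (hS i).2.1
      have hj0 := (hS j).1
      have hinv : ∀ x, ((j : Equiv.Perm ℚ)⁻¹) x = (x - (j : Equiv.Perm ℚ) 0) / mu j := by
        intro x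
        have := hj1 (((j : Equiv.Perm ℚ)⁻¹) x)
        rw [aii] at this
        rw [eq_div_iff hj0]; linarith
      have hval : ∀ x, ((j⁻¹ * i : GG s2 s3 t) : Equiv.Perm ℚ) x =
          (mu i * x + (i : Equiv.Perm ℚ) 0 - (j : Equiv.Perm ℚ) 0) / mu j := by
        intro x
        have : ((j⁻¹ * i : GG s2 s3 t) : Equiv.Perm ℚ) x =
          ((j : Equiv.Perm ℚ)⁻¹) ((i : Equiv.Perm ℚ) x) := rfl
        rw [this, hinv, hi1]
      have hmu : mu ((j⁻¹ * i : GG s2 s3 t) : Equiv.Perm ℚ) = mu i / mu j := by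
        unfold mu at *
        rw [hval, hval]
        field_simp
        ring
      show (if IsTr (j⁻¹ * i) then _ else _) = _
      by_cases hij : mu (j : Equiv.Perm ℚ) = mu (i : Equiv.Perm ℚ)
      · have h1 : IsTr (j⁻¹ * i) := (hTr _).mpr (by rw [hmu, ← hij, div_self hj0])
        rw [if_pos h1, if_pos hij, ← (hS j).2.2.2, hval]
        apply QQ_eq hq (K := K)
        push_cast
        rw [← hN i hi, ← hN j hj]
        field_simp
        ring
      · have h1 : ¬ IsTr (j⁻¹ * i) := by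
          rw [hTr, hmu, div_eq_one_iff_eq hj0]
          exact fun h => hij h.symm
        rw [if_neg h1, if_neg hij]
    have hm : ∀ i ∈ s, mu (i : Equiv.Perm ℚ) ∈ s.image (fun g : GG s2 s3 t => mu (g : Equiv.Perm ℚ)) :=
      fun i hi => Finset.mem_image_of_mem _ hi
    have hsum : ∑ i ∈ s, ∑ j ∈ s, star (c j) * c i * φ (j⁻¹ * i) =
        ∑ b ∈ s.image (fun g : GG s2 s3 t => mu (g : Equiv.Perm ℚ)),
          ∑ i ∈ s.filter (fun i : GG s2 s3 t => mu (i : Equiv.Perm ℚ) = b),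
            ∑ j ∈ s.filter (fun j : GG s2 s3 t => mu (j : Equiv.Perm ℚ) = b),
            star (c j) * c i * q (N i - N j) := by
      rw [← Finset.sum_fiberwise_of_maps_to hm]
      refine Finset.sum_congr rfl (fun b _ => Finset.sum_congr rfl (fun i hi => ?_))
      obtain ⟨hi1, hi2⟩ := Finset.mem_filter.mp hi
      rw [Finset.sum_filter]
      refine Finset.sum_congr rfl (fun j hj => ?_)
      rw [key i hi1 j hj, hi2]
      split_ifs <;> simp
    rw [hsum]
    exact Finset.sum_nonneg (fun b _ => pdz_pull hq.pd _ N c)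

end Helper73.FX
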